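import Pool.Agent.Helper89.KN.Spec
import Pool.Agent.Helper89.KN.Base

/-! Part VOID of the KN swarm -/

open MeasureTheory Set Filter Topology
open scoped ENNReal

namespace KN

theorem void_thm (hS : S_SUP) : S_VOID := by
  intro S Z hS1 hZ hZS hfin Q hQ
  have hdis : Disjoint Z (S \ Z) := disjoint_sdiff_self_right
  have hun : Z ∪ (S \ Z) = S := union_diff_cancel hZS
  have hZf : volume Z ≠ ⊤ := measure_ne_top_of_subset hZS hfin
  have hSf : volume (S \ Z) ≠ ⊤ := measure_ne_top_of_subset diff_subset hfin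
  have h := hS Z (S \ Z) hZ (hS1.diff hZ) hdis hZf hSf
    (fun ω₁ ω₂ => Multiset.card ω₁ = 0 ∧ Q ω₂) ?_
  · rw [hun] at h
    have h0 : PP S (fun ω => cnt Z ω = 0 ∧ Q (res (S \ Z) ω)) =
        PP S (fun ω => (fun ω₁ ω₂ => Multiset.card ω₁ = 0 ∧ Q ω₂) (res Z ω) (res (S \ Z) ω)) := rfl
    rw [h0, h, tsum_eq_single 0]
    · have h1 : ∀ x : Fin 0 → ℂ, PP (S \ Z) ((fun ω₁ ω₂ => Multiset.card ω₁ = 0 ∧ Q ω₂) (conf x)) =
          PP (S \ Z) Q := by
        intro x
        congr 1
        funext ω
        simp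
      simp only [h1]
      rw [lintegral_const]
      have h2 : (Measure.pi fun _ : Fin 0 => volume.restrict Z) univ = 1 := by
        rw [Measure.pi_univ]
        simp
      rw [h2, mul_one]
      simp
    · intro m hm
      have h1 : ∀ x : Fin m → ℂ, PP (S \ Z) ((fun ω₁ ω₂ => Multiset.card ω₁ = 0 ∧ Q ω₂) (conf x)) =
          0 := by
        intro x
        simp [PP, prob, hm]
      simp only [h1]
      simp
  · intro m l
    rcases Nat.eq_zero_or_pos m with rfl | hm
    · have : {p : (Fin 0 → ℂ) × (Fin l → ℂ) | Multiset.card (conf p.1) = 0 ∧ Q (conf p.2)} =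
          Prod.snd ⁻¹' {x : Fin l → ℂ | Q (conf x)} := by
        ext p
        simp
      rw [this]
      exact measurable_snd (hQ l)
    · have : {p : (Fin m → ℂ) × (Fin l → ℂ) | Multiset.card (conf p.1) = 0 ∧ Q (conf p.2)} = ∅ := by
        ext p
        simp
        omega
      rw [this]
      exact MeasurableSet.empty

end KN
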